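import Pool.Agent.H372R3.GE12

namespace Pool.Agent.Results.MP_e9218d_nt.ListUpToEleven

open Pool.Agent.MPe9218d

/-- For every admissible pair `(M, s)` with `M ≤ 11`, the identity can hold only for the ten
listed triples `(M, s, b)`. -/
theorem result (M s : ℕ) (b : ℕ → ℕ) (hs : 1 ≤ s) (hsM : 2 ^ (s - 1) ≤ M) (hM : M ≤ 11)
    (hb : ∀ j, 1 ≤ j → j ≤ M → 1 ≤ b j) (h : Identity M s b) :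
    (M = 1 ∧ s = 1 ∧ b 1 = 1) ∨
    (M = 2 ∧ s = 1 ∧ b 1 = 6 ∧ b 2 = 7) ∨
    (M = 2 ∧ s = 2 ∧ b 1 = 1 ∧ b 2 = 1) ∨
    (M = 3 ∧ s = 2 ∧ b 1 = 3 ∧ b 2 = 3 ∧ b 3 = 4) ∨
    (M = 3 ∧ s = 2 ∧ b 1 = 3 ∧ b 2 = 2 ∧ b 3 = 5) ∨
    (M = 4 ∧ s = 3 ∧ b 1 = 3 ∧ b 2 = 2 ∧ b 3 = 3 ∧ b 4 = 2) ∨
    (M = 4 ∧ s = 3 ∧ b 1 = 4 ∧ b 2 = 1 ∧ b 3 = 4 ∧ b 4 = 1) ∨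
    (M = 6 ∧ s = 3 ∧ b 1 = 7 ∧ b 2 = 6 ∧ b 3 = 7 ∧ b 4 = 6 ∧ b 5 = 6 ∧ b 6 = 7) ∨
    (M = 6 ∧ s = 3 ∧ b 1 = 7 ∧ b 2 = 6 ∧ b 3 = 7 ∧ b 4 = 6 ∧ b 5 = 5 ∧ b 6 = 8) ∨
    (M = 7 ∧ s = 3 ∧ b 1 = 10 ∧ b 2 = 10 ∧ b 3 = 7 ∧ b 4 = 12 ∧ b 5 = 7 ∧ b 6 = 7 ∧ b 7 = 15) :=
  Pool.Agent.H372R3.GE.list11 M s b hs hsM hM hb h

end Pool.Agent.Results.MP_e9218d_nt.ListUpToEleven
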