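import Pool.Agent.H372R3.GD5

namespace Pool.Agent.Results.MP_e9218d_nt.ModulusFour

open Pool.Agent.MPe9218d

/-- The complete list of solutions for the pair `(M, s) = (4, 3)`: the identity holds exactly for
`(b_1, b_2, b_3, b_4) = (3, 2, 3, 2)` and `(4, 1, 4, 1)`. -/
theorem result (b : ℕ → ℕ) (hb : ∀ j, 1 ≤ j → j ≤ 4 → 1 ≤ b j) :
    Identity 4 3 b ↔
      (b 1 = 3 ∧ b 2 = 2 ∧ b 3 = 3 ∧ b 4 = 2) ∨ (b 1 = 4 ∧ b 2 = 1 ∧ b 3 = 4 ∧ b 4 = 1) :=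
  Pool.Agent.H372R3.GD.main43 b hb

end Pool.Agent.Results.MP_e9218d_nt.ModulusFour
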