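import Pool.Agent.H372R3.GF2

namespace Pool.Agent.Results.MP_e9218d_nt.ModulusSixEquivalence

open Pool.Agent.MPe9218d

/-- For `M = 6`, `s = 3`, the difference conditions `(7, 6, 7, 6, 6, 7)` and
`(7, 6, 7, 6, 5, 8)` count the same number of partitions of every `n`. -/
theorem result (b b' : ℕ → ℕ)
    (hb : b 1 = 7 ∧ b 2 = 6 ∧ b 3 = 7 ∧ b 4 = 6 ∧ b 5 = 6 ∧ b 6 = 7)
    (hb' : b' 1 = 7 ∧ b' 2 = 6 ∧ b' 3 = 7 ∧ b' 4 = 6 ∧ b' 5 = 5 ∧ b' 6 = 8) (n : ℕ) :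
    B0 b 6 (C 6 3) n = B0 b' 6 (C 6 3) n :=
  Pool.Agent.H372R3.GE.six_eq b b' hb hb' n

end Pool.Agent.Results.MP_e9218d_nt.ModulusSixEquivalence
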